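import Mathlib
import Pool.Agent.H115R3.Filling.Main

/-!
# Value dependent two-point calibrations of fillings of the circle: definitions and pieces
-/

open Finset Real MeasureTheory Filter Topology Set Pool.Agent.H115R3.Filling

namespace Pool.Agent.T9h82.FA

/-- Level function number `I`: `H ↦ min(max(H - I, 0), 1)`. -/
noncomputable def lev (I : ℕ) (H : ℝ) : ℝ := max 0 (min (H - I) 1)

/-- The level of `H ∈ [0, A]`, integers being rounded towards `A / 2 + 1 / 4`. -/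
noncomputable def rnd (A : ℕ) (H : ℝ) : ℕ := if H < (A : ℝ) / 2 + 1 / 4 then ⌊H⌋₊ else ⌈H⌉₊ - 1

/-- Admissible level vectors `c 0, ..., c (n - 1)` (levels `0, ..., n S - 1`). -/
def Adm (n S : ℕ) (c : ℕ → ℕ) : Prop :=
  (∀ i < n, c i < n * S) ∧ (∀ i, i + 1 < n → c i ≤ c (i + 1) + S ∧ c (i + 1) ≤ c i + S) ∧
    c 0 + c (n - 1) ≤ n * S - 1 + S ∧ n * S - 1 ≤ c 0 + c (n - 1) + S

/-- The pointwise inequality for the coefficients `k i j`, `i < j < n`. -/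
def Pw (n : ℕ) (k : ℕ → ℕ → ℝ) : Prop :=
  ∀ x y : ℕ → ℝ, (∀ i < n, x i ^ 2 + y i ^ 2 ≤ 1) →
    ∑ j ∈ range n, ∑ i ∈ range j, k i j * (x i * y j - x j * y i) ≤ 1

/-- `h_θ + π / 2` (half the difference of the extended distance functions to `θ`, `θ + π`). -/
noncomputable def hf {M : Type} [MetricSpace M] (β : AddCircle (2 * π) → M) (θ : ℝ) (x : M) : ℝ :=
  (ext β ((θ : ℝ) : AddCircle (2 * π)) x - ext β ((θ + π : ℝ) : AddCircle (2 * π)) x) / 2 + π / 2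

/-- Value at the integer `l` of `lev I` of the distance of `l` and `p` modulo `2 A`. -/
def az (A p I l : ℕ) : ℤ :=
  if I + 1 ≤ min (l - p + (p - l)) (2 * A - (l - p + (p - l))) then 1 else 0

/-- Twice the area (in cell units) of the cell `(I, J)` inside the rectangle of the pair
`(i, j)`, as a boundary sum. -/
def om2 (n S i j I J : ℕ) : ℤ :=
  ∑ l ∈ range (2 * (n * S)), (az (n * S) (i * S) I l * az (n * S) (j * S) J (l + 1)
    - az (n * S) (i * S) I (l + 1) * az (n * S) (j * S) J l)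

/-! ### Pieces -/

/-- (SQ) the limit on one square for finitely many pairs of Lipschitz functions. -/
def S_SQ : Prop := ∀ (g : RiemMetric) (m : ℕ) (κ : Fin m → ℝ) (u w : Fin m → ℝ × ℝ → ℝ) (C : ℝ),
  0 ≤ C →
  (∀ k, ∀ p ∈ Sq, ∀ q ∈ Sq, |u k q - u k p| ≤ C * ‖q - p‖) →
  (∀ k, ∀ p ∈ Sq, ∀ q ∈ Sq, |w k q - w k p| ≤ C * ‖q - p‖) →
  (∀ x ∈ Sqo, (∀ k, DifferentiableAt ℝ (u k) x ∧ DifferentiableAt ℝ (w k) x) →
    ∑ k, κ k * (fderiv ℝ (u k) x (1, 0) * fderiv ℝ (w k) x (0, 1)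
      - fderiv ℝ (u k) x (0, 1) * fderiv ℝ (w k) x (1, 0)) ≤ √(g.E x * g.G x - g.F x ^ 2)) →
  ∃ L : ℝ, L ≤ g.area ∧ Tendsto (fun n : ℕ => ∑ k, κ k *
    ∑ c ∈ (range n ×ˢ range n : Finset (ℕ × ℕ)), cellSum (u k) (w k) n c.1 c.2) atTop (𝓝 L)

/-- (POINT) the pointwise inequality in an arbitrary metric. -/
def S_POINT : Prop := ∀ (n : ℕ) (k : ℕ → ℕ → ℝ), Pw n k → ∀ E F G : ℝ, 0 < E →
  0 < E * G - F ^ 2 → ∀ a b : ℕ → ℝ,
  (∀ i < n, ∀ v w, (a i * v + b i * w) ^ 2 ≤ E * v ^ 2 + 2 * F * v * w + G * w ^ 2) →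
  ∑ j ∈ range n, ∑ i ∈ range j, k i j * (a i * b j - a j * b i) ≤ √(E * G - F ^ 2)

/-- (LEV) derivatives of the level functions. -/
def S_LEV : Prop := ∀ (A : ℕ) (f : ℝ × ℝ → ℝ) (x : ℝ × ℝ), (∀ p, 0 ≤ f p ∧ f p ≤ A) →
  DifferentiableAt ℝ f x → (∀ I < A, DifferentiableAt ℝ (fun p => lev I (f p)) x) →
  ∀ I < A, fderiv ℝ (fun p => lev I (f p)) x = if I = rnd A (f x) then fderiv ℝ f x else 0

/-- (ADM) the level vector is admissible. -/
def S_ADM : Prop := ∀ (n S : ℕ), 1 ≤ n → 1 ≤ S → ∀ H : ℕ → ℝ,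
  (∀ i < n, 0 ≤ H i ∧ H i ≤ (n : ℝ) * S) → (∀ i, i + 1 < n → |H i - H (i + 1)| ≤ S) →
  |H 0 + H (n - 1) - (n : ℝ) * S| ≤ S → Adm n S (fun i => rnd (n * S) (H i))

/-- (BND1) limits of loop sums of Lipschitz functions. -/
def S_BND1 : Prop := ∀ (α β : ℝ → ℝ) (C : ℝ), (∀ s t, |α s - α t| ≤ C * |s - t|) →
  (∀ s t, |β s - β t| ≤ C * |s - t|) → ∀ (m : ℕ) (brk : Fin (m + 1) → ℝ), StrictMono brk →
  Tendsto (fun N : ℕ => loopSum brk α β N) atTop
    (𝓝 (∫ s in (brk 0)..(brk (Fin.last m)), (α s * deriv β s - deriv α s * β s)))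

/-- (BND2) the boundary integral for a pair of levels. -/
def S_BND2 : Prop := ∀ (n S : ℕ), 1 ≤ n → 1 ≤ S → ∀ i j, i < j → j < n → ∀ I J, I < n * S →
  J < n * S → ∫ s in (0 : ℝ)..(2 * π),
    (lev I (rho (π * i / n - s) * (n * S) / π) * deriv (fun s =>
        lev J (rho (π * j / n - s) * (n * S) / π)) s
      - deriv (fun s => lev I (rho (π * i / n - s) * (n * S) / π)) s *
        lev J (rho (π * j / n - s) * (n * S) / π)) = om2 n S i j I J

/-- (HF) properties of the functions `hf`. -/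
def S_HF : Prop := ∀ (M : Type) [MetricSpace M] (β : AddCircle (2 * π) → M),
  (∀ x y, dist x y ≤ dist (β x) (β y)) →
  (∀ θ x y, |hf β θ x - hf β θ y| ≤ dist x y) ∧ (∀ θ x, 0 ≤ hf β θ x ∧ hf β θ x ≤ π) ∧
  (∀ θ θ' x, |hf β θ x - hf β θ' x| ≤ |θ - θ'|) ∧
  (∀ θ θ' x, θ ≤ θ' → θ' ≤ θ + π → |hf β θ x + hf β θ' x - π| ≤ π - (θ' - θ)) ∧
  (∀ θ s : ℝ, hf β θ (β (s : AddCircle (2 * π))) = rho (θ - s))

/-- (MAIN) the lower bound from a pointwise inequality. -/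
def S_MAIN : Prop := ∀ (n S : ℕ), 1 ≤ n → 1 ≤ S → ∀ K : ℕ → ℕ → ℕ → ℝ,
  (∀ c, Adm n S c → Pw n (fun i j => K (j - i) (c i) (c j))) →
  ∀ (M : Type) [MetricSpace M] (X : OrientedSurface M), X.NoShortcut →
  (π / ((n : ℝ) * S)) ^ 2 / 2 * ∑ j ∈ range n, ∑ i ∈ range j, ∑ I ∈ range (n * S),
    ∑ J ∈ range (n * S), K (j - i) I J * om2 n S i j I J ≤ X.area

/-! ### The finite check

A hermitian form in the complex variables `z_i = x_i + i y_i` is given by the list of the rows of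
its upper triangle: the `i`-th row is `(M_ii, [M_{i,i+1}, M_{i,i+2}, ...])`, Gaussian integers
being pairs. -/

/-- `(Re, Im)` of `∑ q_j z_j`. -/
noncomputable def lin : List (ℤ × ℤ) → List (ℝ × ℝ) → ℝ × ℝ
  | (q :: qs), (z :: zs) => ((q.1 : ℝ) * z.1 - q.2 * z.2 + (lin qs zs).1,
      (q.1 : ℝ) * z.2 + q.2 * z.1 + (lin qs zs).2)
  | _, _ => (0, 0)

/-- The hermitian form `∑ M_ii |z_i|² + 2 Re ∑_{i<j} conj(z_i) M_ij z_j`. -/
noncomputable def Q : List (ℤ × List (ℤ × ℤ)) → List (ℝ × ℝ) → ℝ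
  | (r :: rs), (z :: zs) => (r.1 : ℝ) * (z.1 ^ 2 + z.2 ^ 2)
      + 2 * (z.1 * (lin r.2 zs).1 + z.2 * (lin r.2 zs).2) + Q rs zs
  | _, _ => 0

/-- `(p a - conj(q) q') / d` for Gaussian integers `a, q, q'`. -/
def upd (p d : ℤ) (q a q' : ℤ × ℤ) : ℤ × ℤ :=
  ((p * a.1 - (q.1 * q'.1 + q.2 * q'.2)) / d, (p * a.2 - (q.1 * q'.2 - q.2 * q'.1)) / d)

/-- The divisions of `upd` are exact. -/
def updOk (p d : ℤ) (q a q' : ℤ × ℤ) : Bool :=
  decide ((p * a.1 - (q.1 * q'.1 + q.2 * q'.2)) = (upd p d q a q').1 * d) &&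
  decide ((p * a.2 - (q.1 * q'.2 - q.2 * q'.1)) = (upd p d q a q').2 * d)

/-- One row of the eliminated matrix. -/
def elimRow (p d : ℤ) (q : ℤ × ℤ) (qs : List (ℤ × ℤ)) (r : ℤ × List (ℤ × ℤ)) :
    ℤ × List (ℤ × ℤ) :=
  ((p * r.1 - (q.1 * q.1 + q.2 * q.2)) / d, List.zipWith (fun a q' => upd p d q a q') r.2 qs)

/-- The divisions of `elimRow` are exact. -/
def elimRowOk (p d : ℤ) (q : ℤ × ℤ) (qs : List (ℤ × ℤ)) (r : ℤ × List (ℤ × ℤ)) : Bool :=
  decide (p * r.1 - (q.1 * q.1 + q.2 * q.2) = (p * r.1 - (q.1 * q.1 + q.2 * q.2)) / d * d) &&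
  (List.zipWith (fun a q' => updOk p d q a q') r.2 qs).all id && (r.2.length == qs.length)

/-- The eliminated matrix: `q = M_{0 j}`, `j ≥ 1`, are the entries of the first row. -/
def elim (p d : ℤ) : List (ℤ × ℤ) → List (ℤ × List (ℤ × ℤ)) → List (ℤ × List (ℤ × ℤ))
  | (q :: qs), (r :: rs) => elimRow p d q qs r :: elim p d qs rs
  | _, _ => []

/-- The eliminations are exact and the lengths match. -/
def elimOk (p d : ℤ) : List (ℤ × ℤ) → List (ℤ × List (ℤ × ℤ)) → Bool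
  | (q :: qs), (r :: rs) => elimRowOk p d q qs r && elimOk p d qs rs
  | [], [] => true
  | _, _ => false

/-- Fraction free elimination (`fuel` = number of rows): all pivots are positive. -/
def chk : ℕ → ℤ → List (ℤ × List (ℤ × ℤ)) → Bool
  | _, _, [] => true
  | 0, _, _ :: _ => false
  | f + 1, d, r :: rs => decide (0 < r.1) && elimOk r.1 d r.2 rs && chk f r.1 (elim r.1 d r.2 rs)

/-- (CHK) soundness of the elimination. -/
def S_CHK : Prop := ∀ (f : ℕ) (d : ℤ) (rows : List (ℤ × List (ℤ × ℤ))), 0 < d →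
  chk f d rows = true → ∀ zs : List (ℝ × ℝ), zs.length = rows.length → 0 ≤ Q rows zs

/-- The rows of the matrix of a level vector `c` (as a list) with weights `w`: `M_ii = 2 w_i`,
`M_ij = i K (j - i) (c_i) (c_j)`. -/
def rowsOf (K : ℕ → ℕ → ℕ → ℤ) : List ℕ → List ℕ → List (ℤ × List (ℤ × ℤ))
  | (a :: c), (w :: ws) =>
      ((2 * w : ℕ), c.zipIdx.map (fun b => ((0 : ℤ), K (b.2 + 1) a b.1))) :: rowsOf K c ws
  | _, _ => []

/-- The test of one level vector, common denominator `D`. -/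
def test (D : ℕ) (K : ℕ → ℕ → ℕ → ℤ) (c ws : List ℕ) : Bool :=
  (ws.sum ≤ D : Bool) && (ws.length == c.length) && chk c.length 1 (rowsOf K c ws)

/-- (TEST) soundness of the test. -/
def S_TEST : Prop := ∀ (n D : ℕ) (K : ℕ → ℕ → ℕ → ℤ) (c : ℕ → ℕ) (ws : List ℕ), 0 < D →
  test D K ((List.range n).map c) ws = true →
  Pw n (fun i j => (K (j - i) (c i) (c j) : ℝ) / D)

/-- Canonical admissible level vectors. -/
def Can (n S : ℕ) (c : ℕ → ℕ) : Prop :=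
  Adm n S c ∧ ∀ i < n, c 0 ≤ c i ∧ c i + c 0 ≤ n * S - 1

/-- (SYM) reduction to canonical level vectors by rotations and negation. -/
def S_SYM : Prop := ∀ (n S : ℕ) (K : ℕ → ℕ → ℕ → ℝ), 1 ≤ n → 1 ≤ S →
  (∀ k a b, 1 ≤ k → k < n → a < n * S → b < n * S → K (n - k) b (n * S - 1 - a) = K k a b) →
  (∀ k a b, 1 ≤ k → k < n → a < n * S → b < n * S →
    K k (n * S - 1 - a) (n * S - 1 - b) = K k a b) →
  (∀ c, Can n S c → Pw n (fun i j => K (j - i) (c i) (c j))) →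
  ∀ c, Adm n S c → Pw n (fun i j => K (j - i) (c i) (c j))

/-- All continuations `[c_1, c_2, ...]` (`k` further entries) of a level vector after the entry
`v`, with steps at most `S`, values in `[m, B]` and the last entry at least `B - S`. -/
def conts (S m B : ℕ) : ℕ → ℕ → List (List ℕ)
  | 0, v => if B ≤ v + S then [[]] else []
  | k + 1, v => ((List.range (2 * S + 1)).map (fun s => v + s)).flatMap (fun u =>
      if S + m ≤ u ∧ u ≤ B + S then (conts S m B k (u - S)).map (fun t => (u - S) :: t) else [])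

/-- The canonical level vectors with `c 0 = m`. -/
def gen (n S m : ℕ) : List (List ℕ) :=
  (conts S m (n * S - 1 - m) (n - 1) m).map (fun t => m :: t)

/-- (GEN) completeness of the enumeration. -/
def S_GEN : Prop := ∀ (n S : ℕ) (c : ℕ → ℕ), 1 ≤ n → 1 ≤ S → Can n S c →
  2 * c 0 ≤ n * S - 1 ∧ (List.range n).map c ∈ gen n S (c 0)

end Pool.Agent.T9h82.FA
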